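import Mathlib.Algebra.Lie.OfAssociative
import Mathlib.Analysis.InnerProductSpace.Spectrum
import Mathlib.Analysis.InnerProductSpace.Adjoint
import Mathlib.LinearAlgebra.BilinearForm.Properties

/-!
# Heintze groups of Carnot type are at most `1 / s ^ 2`-pinched (MP_1a0a4b_gt, Q1: yes)

A left-invariant Riemannian metric on a simply connected Lie group is the same thing as a scalar
product `B` on its Lie algebra `𝔤`; its Levi-Civita connection maps left-invariant fields to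
left-invariant fields and is given on `𝔤` by the Koszul formula, so the sectional curvatures are
computed in `𝔤`.

Proof. Let `T` be the vector of `A + 𝔫` which is `B`-orthogonal to `𝔫 = V₁ ⊕ ⋯ ⊕ V_s`, let
`D = ad T` on `𝔫`, with symmetric part `S` and skew part `Q`. Then
`B (R (Y, T) T, Y) = - (|S Y|² + 2 B (S Y, Q Y))` for `Y` in `𝔫`. If `D Y = μ Y` this is
`|S Y|² - 2 μ² |Y|² ≥ - μ² |Y|²`; if `S Y = σ Y` it is `- σ² |Y|²`. The number `1` is an eigenvalue
of `D`, because `D - 1` maps `𝔫` into the proper subspace `V₂ ⊕ ⋯ ⊕ V_s`; and `s` is an eigenvalue of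
`D`, because `V_s` is central in `𝔫`; hence the largest eigenvalue `σ` of `S` is at least `s`. So the
sectional curvatures take a value `≥ - 1 / |T|²` and a value `≤ - s² / |T|²`.
-/

set_option autoImplicit false

open Module

namespace Pool.Agent.Results.MP_1a0a4b_gt.ExactPinching

variable {𝔤 : Type} [LieRing 𝔤] [LieAlgebra ℝ 𝔤]

/-- `𝔤 = V₁ ⊕ ⋯ ⊕ V_s ⊕ ℝ A` is the Lie algebra of a Heintze group of Carnot type, with
`𝔫 = V₁ ⊕ ⋯ ⊕ V_s` of step `s`: `[V₁, V_i] = V_{i+1}` for `1 ≤ i < s`, `[V₁, V_s] = 0`, `V_s ≠ 0`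
and `[A, x] = i x` for `x` in `V_i`. -/
structure IsCarnotHeintze (s : ℕ) (V : ℕ → Submodule ℝ 𝔤) (A : 𝔤) : Prop where
  one_le : 1 ≤ s
  /-- the sum of `V₁, …, V_s` is direct -/
  indep : iSupIndep (fun i : Fin s => V (i + 1))
  /-- `A` is not in `𝔫` -/
  notMem : A ∉ ⨆ i : Fin s, V (i + 1)
  /-- `𝔤 = 𝔫 + ℝ A` -/
  span : (⨆ i : Fin s, V (i + 1)) ⊔ Submodule.span ℝ {A} = ⊤
  /-- stratification -/
  bracket : ∀ i : ℕ, 1 ≤ i → i < s →
    Submodule.span ℝ {z | ∃ x ∈ V 1, ∃ y ∈ V i, ⁅x, y⁆ = z} = V (i + 1)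
  last : ∀ x ∈ V 1, ∀ y ∈ V s, ⁅x, y⁆ = 0
  ne_bot : V s ≠ ⊥
  grading : ∀ i : ℕ, 1 ≤ i → i ≤ s → ∀ x ∈ V i, ⁅A, x⁆ = (i : ℝ) • x

/-- `B` is a scalar product (a left-invariant Riemannian metric on the group). -/
structure IsScalarProduct (B : 𝔤 →ₗ[ℝ] 𝔤 →ₗ[ℝ] ℝ) : Prop where
  symm : ∀ x y, B x y = B y x
  pos : ∀ x, x ≠ 0 → 0 < B x x

/-- `D x y = ∇_x y` is the Levi-Civita connection of `B` on left-invariant fields: Koszul's
formula. -/
def IsLeviCivita (B : 𝔤 →ₗ[ℝ] 𝔤 →ₗ[ℝ] ℝ) (D : 𝔤 → 𝔤 → 𝔤) : Prop :=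
  ∀ x y z, 2 * B (D x y) z = B ⁅x, y⁆ z - B ⁅y, z⁆ x + B ⁅z, x⁆ y

/-- the curvature tensor `R(x, y) z = ∇_x ∇_y z - ∇_y ∇_x z - ∇_[x, y] z` -/
def curv (D : 𝔤 → 𝔤 → 𝔤) (x y z : 𝔤) : 𝔤 := D x (D y z) - D y (D x z) - D ⁅x, y⁆ z

/-- the sectional curvature of the plane spanned by `x` and `y` -/
noncomputable def sec (B : 𝔤 →ₗ[ℝ] 𝔤 →ₗ[ℝ] ℝ) (D : 𝔤 → 𝔤 → 𝔤) (x y : 𝔤) : ℝ :=
  B (curv D x y y) x / (B x x * B y y - B x y ^ 2)

/-! ### Existence and uniqueness of the Levi-Civita connection -/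

section LC

variable {B : 𝔤 →ₗ[ℝ] 𝔤 →ₗ[ℝ] ℝ}

theorem IsScalarProduct.ext (hB : IsScalarProduct B) {x y : 𝔤} (h : ∀ z, B x z = B y z) :
    x = y := by
  by_contra hne
  have h1 : x - y ≠ 0 := sub_ne_zero.2 hne
  have h2 := hB.pos _ h1
  have h3 : B (x - y) (x - y) = B x (x - y) - B y (x - y) := by
    rw [map_sub B x y, LinearMap.sub_apply]
  rw [h3, h (x - y), sub_self] at h2
  exact lt_irrefl _ h2

theorem exists_leviCivita [FiniteDimensional ℝ 𝔤] (hB : IsScalarProduct B) :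
    ∃ D : 𝔤 → 𝔤 → 𝔤, IsLeviCivita B D := by
  have hinj : Function.Injective B := fun x y h => hB.ext fun z => by rw [h]
  have hsurj : Function.Surjective B := by
    have h1 : finrank ℝ (𝔤 →ₗ[ℝ] ℝ) = finrank ℝ 𝔤 := Subspace.dual_finrank_eq
    exact (LinearMap.injective_iff_surjective_of_finrank_eq_finrank h1.symm).1 hinj
  have key : ∀ x y : 𝔤, ∃ w : 𝔤, ∀ z, 2 * B w z = B ⁅x, y⁆ z - B ⁅y, z⁆ x + B ⁅z, x⁆ y := by
    intro x y
    let φ : 𝔤 →ₗ[ℝ] ℝ :=
      { toFun := fun z => (B ⁅x, y⁆ z - B ⁅y, z⁆ x + B ⁅z, x⁆ y) / 2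
        map_add' := fun z z' => by
          simp only [lie_add, add_lie, map_add, LinearMap.add_apply]; ring
        map_smul' := fun t z => by
          simp only [lie_smul, smul_lie, map_smul, LinearMap.smul_apply, smul_eq_mul,
            RingHom.id_apply]; ring }
    obtain ⟨w, hw⟩ := hsurj φ
    refine ⟨w, fun z => ?_⟩
    rw [hw]
    show 2 * ((B ⁅x, y⁆ z - B ⁅y, z⁆ x + B ⁅z, x⁆ y) / 2) = _
    ring
  choose D hD using key
  exact ⟨D, hD⟩

theorem IsLeviCivita.unique (hB : IsScalarProduct B) {D D' : 𝔤 → 𝔤 → 𝔤}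
    (h : IsLeviCivita B D) (h' : IsLeviCivita B D') : D = D' := by
  funext x y
  refine hB.ext fun z => ?_
  have h1 := h x y z
  have h2 := h' x y z
  linarith

end LC

/-! ### The two curvature computations -/

section Comp

variable {B : 𝔤 →ₗ[ℝ] 𝔤 →ₗ[ℝ] ℝ} (hB : IsScalarProduct B) {D : 𝔤 → 𝔤 → 𝔤}
  (hD : IsLeviCivita B D) {T : 𝔤} (hT : ∀ x y : 𝔤, B ⁅x, y⁆ T = 0)

include hB hD

theorem D_zero (x : 𝔤) : D x 0 = 0 := by
  refine hB.ext fun z => ?_
  have h := hD x 0 z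
  simp only [lie_zero, zero_lie, map_zero, LinearMap.zero_apply] at h ⊢
  linarith

include hT

theorem D_TT : D T T = 0 := by
  refine hB.ext fun z => ?_
  have h := hD T T z
  rw [lie_self, map_zero, LinearMap.zero_apply, hT, hT] at h
  rw [map_zero, LinearMap.zero_apply]
  linarith

omit hB in
theorem D_T_apply (y z : 𝔤) : 2 * B (D y T) z = -(B ⁅T, y⁆ z) - B ⁅T, z⁆ y := by
  have h := hD y T z
  rw [hT z y, ← lie_skew y T, map_neg, LinearMap.neg_apply] at h
  linarith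

theorem curv_apply (y : 𝔤) : 2 * B (curv D y T T) y =
    -(B ⁅T, D y T⁆ y) + B ⁅T, y⁆ (D y T) - B ⁅T, ⁅T, y⁆⁆ y - B ⁅T, y⁆ ⁅T, y⁆ := by
  have h1 : curv D y T T = -(D T (D y T)) - D ⁅y, T⁆ T := by
    rw [curv, D_TT hB hD hT, D_zero hB hD, zero_sub]
  have h2 := hD T (D y T) y
  rw [hT (D y T) y, ← lie_skew y T, map_neg, LinearMap.neg_apply] at h2
  have h3 := D_T_apply hD hT ⁅y, T⁆ y
  rw [← lie_skew y T, lie_neg, map_neg, LinearMap.neg_apply, map_neg] at h3
  rw [h1, map_sub, map_neg, LinearMap.sub_apply, LinearMap.neg_apply, ← lie_skew y T]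
  linarith

/-- eigenvectors of `ad T` -/
theorem curv_ad {μ : ℝ} {y : 𝔤} (hy : ⁅T, y⁆ = μ • y) :
    -(μ ^ 2 * B y y) ≤ B (curv D y T T) y := by
  by_cases hy0 : y = 0
  · subst hy0
    simp
  have hyy : 0 < B y y := hB.pos y hy0
  have h := curv_apply hB hD hT y
  set U := D y T with hU
  have hU1 : ∀ z, B ⁅T, z⁆ y = -(2 * B U z) - μ * B y z := by
    intro z
    have h1 := D_T_apply hD hT y z
    rw [hy, map_smul, LinearMap.smul_apply, smul_eq_mul, ← hU] at h1
    linarith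
  have hUy : B U y = -(μ * B y y) := by
    have h1 := hU1 y
    rw [hy, map_smul, LinearMap.smul_apply, smul_eq_mul] at h1
    linarith
  have hTU := hU1 U
  rw [hB.symm y U, hUy] at hTU
  have h2 : B ⁅T, ⁅T, y⁆⁆ y = μ ^ 2 * B y y := by
    rw [hy, lie_smul, hy, map_smul, map_smul, LinearMap.smul_apply, LinearMap.smul_apply,
      smul_eq_mul, smul_eq_mul]
    ring
  have h3 : B ⁅T, y⁆ U = -(μ ^ 2 * B y y) := by
    rw [hy, map_smul, LinearMap.smul_apply, smul_eq_mul, hB.symm y U, hUy]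
    ring
  have h4 : B ⁅T, y⁆ ⁅T, y⁆ = μ ^ 2 * B y y := by
    rw [hy, map_smul, map_smul, LinearMap.smul_apply, smul_eq_mul, smul_eq_mul]
    ring
  rw [hTU, h2, h3, h4] at h
  -- Cauchy–Schwarz for `U` and `y`
  have hcs : 0 ≤ B (U + μ • y) (U + μ • y) := by
    by_cases h0 : U + μ • y = 0
    · rw [h0]; simp
    · exact (hB.pos _ h0).le
  simp only [map_add, LinearMap.add_apply, map_smul, LinearMap.smul_apply, smul_eq_mul] at hcs
  rw [hB.symm y U, hUy] at hcs
  nlinarith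

/-- eigenvectors of the symmetric part of `ad T` -/
theorem curv_symm {σ : ℝ} {y : 𝔤} (hy : D y T = -(σ • y)) :
    B (curv D y T T) y = -(σ ^ 2 * B y y) := by
  have h := curv_apply hB hD hT y
  set P := ⁅T, y⁆ with hP
  have hz : ∀ z, B ⁅T, z⁆ y = 2 * σ * B y z - B P z := by
    intro z
    have h1 := D_T_apply hD hT y z
    rw [hy, map_neg, LinearMap.neg_apply, map_smul, LinearMap.smul_apply, smul_eq_mul,
      ← hP] at h1
    linarith
  have hPy : B P y = σ * B y y := by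
    have h1 := hz y
    rw [← hP] at h1
    linarith
  have hTP := hz P
  rw [hB.symm y P, hPy] at hTP
  have h1 : B ⁅T, D y T⁆ y = -(σ ^ 2 * B y y) := by
    rw [hy, lie_neg, lie_smul, map_neg, LinearMap.neg_apply, map_smul, LinearMap.smul_apply,
      smul_eq_mul, ← hP, hPy]
    ring
  have h2 : B P (D y T) = -(σ ^ 2 * B y y) := by
    rw [hy, map_neg, map_smul, smul_eq_mul, hPy]
    ring
  rw [h1, h2, hTP] at h
  linarith

/-- `S y = - ∇_y T`, as a linear map -/
noncomputable def shape : 𝔤 →ₗ[ℝ] 𝔤 where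
  toFun y := -(D y T)
  map_add' y y' := by
    refine hB.ext fun z => ?_
    have h1 := D_T_apply hD hT y z
    have h2 := D_T_apply hD hT y' z
    have h3 := D_T_apply hD hT (y + y') z
    simp only [lie_add, map_add, LinearMap.add_apply] at h3
    simp only [map_neg, map_add, LinearMap.neg_apply, LinearMap.add_apply]
    linarith
  map_smul' t y := by
    refine hB.ext fun z => ?_
    have h1 := D_T_apply hD hT y z
    have h3 := D_T_apply hD hT (t • y) z
    simp only [lie_smul, map_smul, LinearMap.smul_apply, smul_eq_mul] at h3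
    simp only [map_neg, map_smul, LinearMap.neg_apply, LinearMap.smul_apply, smul_eq_mul,
      RingHom.id_apply]
    have h4 : 2 * B (D (t • y) T) z = t * (2 * B (D y T) z) := by
      rw [h3, h1]; ring
    linarith

theorem shape_apply (y z : 𝔤) :
    2 * B (shape hB hD hT y) z = B ⁅T, y⁆ z + B ⁅T, z⁆ y := by
  have h1 := D_T_apply hD hT y z
  have h2 : B (shape hB hD hT y) z = -(B (D y T) z) := by
    show B (-(D y T)) z = _
    rw [map_neg, LinearMap.neg_apply]
  rw [h2]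
  linarith

/-- The symmetric part of `ad T` has an eigenvalue `σ ≥ μ` if `ad T` has the eigenvalue `μ`. -/
theorem exists_eigen [FiniteDimensional ℝ 𝔤] {μ : ℝ} {y : 𝔤} (hy0 : y ≠ 0)
    (hy : ⁅T, y⁆ = μ • y) :
    ∃ (σ : ℝ) (e : 𝔤), μ ≤ σ ∧ e ≠ 0 ∧ D e T = -(σ • e) := by
  classical
  let core : InnerProductSpace.Core ℝ 𝔤 :=
    { inner := fun x z => B x z
      conj_inner_symm := fun x z => by
        show B z x = B x z
        exact hB.symm z x
      re_inner_nonneg := fun x => by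
        show 0 ≤ B x x
        by_cases h0 : x = 0
        · rw [h0]; simp
        · exact (hB.pos _ h0).le
      add_left := fun x x' z => by
        show B (x + x') z = B x z + B x' z
        rw [map_add, LinearMap.add_apply]
      smul_left := fun x z t => by
        show B (t • x) z = t * B x z
        rw [map_smul, LinearMap.smul_apply, smul_eq_mul]
      definite := fun x h => by
        by_contra h0
        exact (hB.pos _ h0).ne' h }
  let _ : NormedAddCommGroup 𝔤 := core.toNormedAddCommGroup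
  let _ : InnerProductSpace ℝ 𝔤 := InnerProductSpace.ofCore core.toCore
  have hin : ∀ x z : 𝔤, inner ℝ x z = B x z := fun x z => rfl
  let S := shape hB hD hT
  have hS : S.IsSymmetric := by
    intro x z
    rw [hin, hin, hB.symm x]
    have h1 := shape_apply hB hD hT x z
    have h2 := shape_apply hB hD hT z x
    linarith
  have hSy : inner ℝ (S y) y = μ * inner ℝ y y := by
    rw [hin, hin]
    have h1 := shape_apply hB hD hT y y
    rw [hy, map_smul, LinearMap.smul_apply, smul_eq_mul] at h1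
    linarith
  by_contra hcon
  push Not at hcon
  set b := hS.eigenvectorBasis rfl with hb
  have hlt : ∀ i, hS.eigenvalues rfl i < μ := by
    intro i
    by_contra hge
    push Not at hge
    refine hcon _ (b i) hge (b.orthonormal.ne_zero i) ?_
    have h1 : S (b i) = ((hS.eigenvalues rfl i : ℝ) : ℝ) • b i := hS.apply_eigenvectorBasis rfl i
    have h2 : -(D (b i) T) = (hS.eigenvalues rfl i : ℝ) • b i := h1
    rw [← h2, neg_neg]
  have hexp : inner ℝ (S y) y = ∑ i, hS.eigenvalues rfl i * (inner ℝ (b i) y) ^ 2 := by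
    have h1 : inner ℝ (S y) y = ∑ i, inner ℝ (S y) (b i) * inner ℝ (b i) y :=
      (b.sum_inner_mul_inner (S y) y).symm
    rw [h1]
    refine Finset.sum_congr rfl fun i _ => ?_
    have h2 : inner ℝ (S y) (b i) = inner ℝ y (S (b i)) := hS y (b i)
    have h3 : S (b i) = ((hS.eigenvalues rfl i : ℝ) : ℝ) • b i := hS.apply_eigenvectorBasis rfl i
    rw [h2, h3, inner_smul_right, real_inner_comm]
    ring
  have hexp2 : inner ℝ y y = ∑ i, (inner ℝ (b i) y) ^ 2 := by
    have h1 : inner ℝ y y = ∑ i, inner ℝ y (b i) * inner ℝ (b i) y :=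
      (b.sum_inner_mul_inner y y).symm
    rw [h1]
    refine Finset.sum_congr rfl fun i _ => ?_
    rw [real_inner_comm y (b i)]
    ring
  have hyy : 0 < (inner ℝ y y : ℝ) := by
    rw [hin]; exact hB.pos y hy0
  have hex : ∃ i, 0 < (inner ℝ (b i) y : ℝ) ^ 2 := by
    by_contra hno
    push Not at hno
    have : (inner ℝ y y : ℝ) ≤ 0 := by
      rw [hexp2]
      exact Finset.sum_nonpos fun i _ => hno i
    linarith
  obtain ⟨i0, hi0⟩ := hex
  have hfin : ∑ i, hS.eigenvalues rfl i * (inner ℝ (b i) y) ^ 2 <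
      ∑ i, μ * (inner ℝ (b i) y : ℝ) ^ 2 := by
    refine Finset.sum_lt_sum (fun i _ => ?_) ⟨i0, Finset.mem_univ _, ?_⟩
    · exact mul_le_mul_of_nonneg_right (hlt i).le (sq_nonneg _)
    · exact mul_lt_mul_of_pos_right (hlt i0) hi0
  rw [← hexp, ← Finset.mul_sum, ← hexp2, hSy] at hfin
  exact lt_irrefl _ hfin

/-- **The pinching estimate** from eigenvectors of `ad T` with the eigenvalues `1` and `s`. -/
theorem pinch [FiniteDimensional ℝ 𝔤] (hT0 : T ≠ 0) {s : ℝ} (hs : 0 < s) {y z : 𝔤}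
    (hy0 : y ≠ 0) (hy : ⁅T, y⁆ = (1 : ℝ) • y) (hz0 : z ≠ 0) (hz : ⁅T, z⁆ = s • z) {a b : ℝ}
    (hsec : ∀ u v : 𝔤, LinearIndependent ℝ ![u, v] → a ≤ sec B D u v ∧ sec B D u v ≤ b) :
    b / a ≤ 1 / s ^ 2 := by
  have hTT : 0 < B T T := hB.pos T hT0
  have hli : ∀ u : 𝔤, u ≠ 0 → B u T = 0 → LinearIndependent ℝ ![u, T] := by
    intro u hu0 hu
    rw [LinearIndependent.pair_iff]
    intro p q hpq
    have h1 : B (p • u + q • T) T = 0 := by rw [hpq]; simp
    rw [map_add, LinearMap.add_apply, map_smul, map_smul, LinearMap.smul_apply,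
      LinearMap.smul_apply, smul_eq_mul, smul_eq_mul, hu, mul_zero, zero_add] at h1
    have hq : q = 0 := (mul_eq_zero.1 h1).resolve_right hTT.ne'
    rw [hq, zero_smul, add_zero] at hpq
    exact ⟨(smul_eq_zero.1 hpq).resolve_right hu0, hq⟩
  -- upper bound at `y`
  have hyT : B y T = 0 := by
    have h1 := hT T y
    rwa [hy, one_smul] at h1
  have hyy : 0 < B y y := hB.pos y hy0
  have h1 := (hsec y T (hli y hy0 hyT)).2
  have h2 := curv_ad hB hD hT hy
  rw [sec, hyT] at h1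
  have hden : 0 < B y y * B T T - 0 ^ 2 := by
    rw [zero_pow two_ne_zero, sub_zero]; exact mul_pos hyy hTT
  rw [div_le_iff₀ hden] at h1
  have hbT : -(b * B T T) ≤ 1 := by
    have h3 : -(1 ^ 2 * B y y) ≤ b * (B y y * B T T - 0 ^ 2) := h2.trans h1
    have h4 : B y y * (-(b * B T T)) ≤ B y y * 1 := by nlinarith
    exact le_of_mul_le_mul_left h4 hyy
  -- lower bound at `e`
  obtain ⟨σ, e, hσ, he0, he⟩ := exists_eigen hB hD hT hz0 hz
  have heT : B e T = 0 := by
    have h3 := D_T_apply hD hT e T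
    rw [he, map_neg, LinearMap.neg_apply, map_smul, LinearMap.smul_apply, smul_eq_mul, hT,
      lie_self, map_zero, LinearMap.zero_apply] at h3
    have h4 : σ * B e T = 0 := by linarith
    exact (mul_eq_zero.1 h4).resolve_left (by linarith)
  have hee : 0 < B e e := hB.pos e he0
  have h3 := (hsec e T (hli e he0 heT)).1
  have h4 := curv_symm hB hD hT he
  rw [sec, heT, h4] at h3
  have hden2 : 0 < B e e * B T T - 0 ^ 2 := by
    rw [zero_pow two_ne_zero, sub_zero]; exact mul_pos hee hTT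
  rw [le_div_iff₀ hden2] at h3
  have haT : σ ^ 2 ≤ -(a * B T T) := by
    have h5 : B e e * σ ^ 2 ≤ B e e * (-(a * B T T)) := by nlinarith
    exact le_of_mul_le_mul_left h5 hee
  have hs2 : s ^ 2 ≤ σ ^ 2 := pow_le_pow_left₀ hs.le hσ 2
  have ha : a < 0 := by
    by_contra h5
    push Not at h5
    have h6 := mul_nonneg h5 hTT.le
    have h7 : 0 < s ^ 2 := by positivity
    linarith
  have hkey : s ^ 2 * (-b) ≤ -a := by
    have h5 : B T T * (s ^ 2 * (-b)) ≤ B T T * (-a) := by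
      have h6 : s ^ 2 * (-(b * B T T)) ≤ s ^ 2 * 1 :=
        mul_le_mul_of_nonneg_left hbT (by positivity)
      nlinarith
    exact le_of_mul_le_mul_left h5 hTT
  have hs2pos : 0 < s ^ 2 := by positivity
  rw [← neg_div_neg_eq, div_le_div_iff₀ (neg_pos.2 ha) hs2pos]
  linarith

end Comp

/-! ### The algebra of a Heintze group of Carnot type -/

section Alg

variable {s : ℕ} {V : ℕ → Submodule ℝ 𝔤} {A : 𝔤} (h : IsCarnotHeintze s V A)

/-- the nilradical `𝔫 = V₁ ⊕ ⋯ ⊕ V_s` -/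
def nil (s : ℕ) (V : ℕ → Submodule ℝ 𝔤) : Submodule ℝ 𝔤 := ⨆ i : Fin s, V (i + 1)

/-- `V_k` for `k ≤ s`, and `0` beyond -/
def W (s : ℕ) (V : ℕ → Submodule ℝ 𝔤) (k : ℕ) : Submodule ℝ 𝔤 := if k ≤ s then V k else ⊥

theorem le_nil {k : ℕ} (h1 : 1 ≤ k) (hk : k ≤ s) : V k ≤ nil s V := by
  have := le_iSup (fun i : Fin s => V (i + 1)) ⟨k - 1, by omega⟩
  simpa [nil, Nat.sub_add_cancel h1] using this

theorem W_le_nil {k : ℕ} (h1 : 1 ≤ k) : W s V k ≤ nil s V := by
  unfold W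
  split_ifs with hk
  · exact le_nil h1 hk
  · exact bot_le

include h

theorem lie_W : ∀ i : ℕ, 1 ≤ i → i ≤ s → ∀ j : ℕ, 1 ≤ j → ∀ x ∈ V i, ∀ y ∈ W s V j,
    ⁅x, y⁆ ∈ W s V (i + j) := by
  have base : ∀ j : ℕ, 1 ≤ j → ∀ x ∈ V 1, ∀ y ∈ W s V j, ⁅x, y⁆ ∈ W s V (1 + j) := by
    intro j hj x hx y hy
    by_cases hjs : j ≤ s
    · rw [W, if_pos hjs] at hy
      rcases lt_or_eq_of_le hjs with hlt | rfl
      · rw [W, if_pos (by omega), add_comm 1 j, ← h.bracket j hj hlt]
        exact Submodule.subset_span ⟨x, hx, y, hy, rfl⟩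
      · rw [h.last x hx y hy]
        exact Submodule.zero_mem _
    · rw [W, if_neg hjs, Submodule.mem_bot] at hy
      rw [hy, lie_zero]
      exact Submodule.zero_mem _
  intro i hi
  induction i, hi using Nat.le_induction with
  | base => intro _ j hj x hx y hy; exact base j hj x hx y hy
  | succ i hi ih =>
    intro his j hj x hx y hy
    rw [← h.bracket i hi (by omega)] at hx
    induction hx using Submodule.span_induction with
    | mem x hx =>
      obtain ⟨x1, hx1, x', hx', rfl⟩ := hx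
      rw [lie_lie]
      refine Submodule.sub_mem _ ?_ ?_
      · have h1 := ih (by omega) j hj x' hx' y hy
        have h2 := base (i + j) (by omega) x1 hx1 _ h1
        rwa [show i + 1 + j = 1 + (i + j) by omega]
      · have h1 := base j hj x1 hx1 y hy
        have h2 := ih (by omega) (1 + j) (by omega) x' hx' _ h1
        rwa [show i + 1 + j = i + (1 + j) by omega]
    | zero => rw [zero_lie]; exact Submodule.zero_mem _
    | add x x' _ _ h1 h2 => rw [add_lie]; exact Submodule.add_mem _ h1 h2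
    | smul t x _ h1 => rw [smul_lie]; exact Submodule.smul_mem _ _ h1

/-- `V_{≥ 2}` -/
theorem lie_nil {x y : 𝔤} (hx : x ∈ nil s V) (hy : y ∈ nil s V) :
    ⁅x, y⁆ ∈ ⨆ i : {i : Fin s // i.1 ≠ 0}, V (i.1 + 1) := by
  unfold nil at hx hy
  induction hx using Submodule.iSup_induction' with
  | zero => rw [zero_lie]; exact Submodule.zero_mem _
  | add x x' _ _ h1 h2 => rw [add_lie]; exact Submodule.add_mem _ h1 h2
  | mem i x hx =>
    induction hy using Submodule.iSup_induction' with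
    | zero => rw [lie_zero]; exact Submodule.zero_mem _
    | add x x' _ _ h1 h2 => rw [lie_add]; exact Submodule.add_mem _ h1 h2
    | mem j y hy =>
      have h1 := lie_W h (i + 1) (by omega) (by omega) (j + 1) (by omega) x hx y
        (by rw [W, if_pos (by omega)]; exact hy)
      rw [W] at h1
      split_ifs at h1 with hle
      · have h2 := le_iSup (fun i : {i : Fin s // i.1 ≠ 0} => V (i.1 + 1))
          ⟨⟨i + 1 + j, by omega⟩, by simp⟩
        apply h2
        simpa [add_assoc] using h1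
      · rw [Submodule.mem_bot] at h1
        rw [h1]
        exact Submodule.zero_mem _

omit h in
theorem sup_le_nil : (⨆ i : {i : Fin s // i.1 ≠ 0}, V (i.1 + 1)) ≤ nil s V :=
  iSup_le fun i => le_iSup (fun i : Fin s => V (i + 1)) i.1

theorem lie_A {y : 𝔤} (hy : y ∈ nil s V) : ⁅A, y⁆ ∈ nil s V := by
  unfold nil at hy
  induction hy using Submodule.iSup_induction' with
  | zero => rw [lie_zero]; exact Submodule.zero_mem _
  | add x x' _ _ h1 h2 => rw [lie_add]; exact Submodule.add_mem _ h1 h2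
  | mem j y hy =>
    rw [h.grading (j + 1) (by omega) (by omega) y hy]
    exact Submodule.smul_mem _ _ (le_nil (by omega) (by omega) hy)

theorem lie_A_sub {y : 𝔤} (hy : y ∈ nil s V) :
    ⁅A, y⁆ - y ∈ ⨆ i : {i : Fin s // i.1 ≠ 0}, V (i.1 + 1) := by
  unfold nil at hy
  induction hy using Submodule.iSup_induction' with
  | zero => rw [lie_zero, sub_zero]; exact Submodule.zero_mem _
  | add x x' _ _ h1 h2 =>
    rw [lie_add, add_sub_add_comm]; exact Submodule.add_mem _ h1 h2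
  | mem j y hy =>
    have h1 := h.grading (j + 1) (by omega) (by omega) y hy
    rw [h1]
    by_cases hj : j.1 = 0
    · rw [hj]; simp
    · have h2 := le_iSup (fun i : {i : Fin s // i.1 ≠ 0} => V (i.1 + 1)) ⟨j, hj⟩
      exact Submodule.sub_mem _ (Submodule.smul_mem _ _ (h2 hy)) (h2 hy)

/-- `[𝔤, 𝔤] ⊆ 𝔫` -/
theorem lie_mem (x y : 𝔤) : ⁅x, y⁆ ∈ nil s V := by
  have hx : x ∈ nil s V ⊔ Submodule.span ℝ {A} := by
    have := h.span; unfold nil; rw [this]; trivial
  have hy : y ∈ nil s V ⊔ Submodule.span ℝ {A} := by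
    have := h.span; unfold nil; rw [this]; trivial
  obtain ⟨n, hn, z, hz, rfl⟩ := Submodule.mem_sup.1 hx
  obtain ⟨n', hn', z', hz', rfl⟩ := Submodule.mem_sup.1 hy
  obtain ⟨t, rfl⟩ := Submodule.mem_span_singleton.1 hz
  obtain ⟨t', rfl⟩ := Submodule.mem_span_singleton.1 hz'
  simp only [lie_add, add_lie, lie_smul, smul_lie, lie_self, smul_zero, add_zero]
  refine Submodule.add_mem _ (Submodule.add_mem _ ?_ ?_) ?_
  · exact sup_le_nil (lie_nil h hn hn')
  · exact Submodule.smul_mem _ _ (lie_A h hn')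
  · rw [← lie_skew]
    exact Submodule.smul_mem _ _ (Submodule.neg_mem _ (lie_A h hn))

theorem V_one_ne_bot : V 1 ≠ ⊥ := by
  intro h0
  have hall : ∀ i : ℕ, 1 ≤ i → i ≤ s → V i = ⊥ := by
    intro i hi
    induction i, hi using Nat.le_induction with
    | base => intro _; exact h0
    | succ i hi ih =>
      intro his
      rw [← h.bracket i hi (by omega), Submodule.span_eq_bot]
      rintro z ⟨x, hx, y, hy, rfl⟩
      rw [h0, Submodule.mem_bot] at hx
      rw [hx, zero_lie]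
  exact h.ne_bot (hall s h.one_le le_rfl)

/-- `V_s` is central in `𝔫` -/
theorem lie_last {x y : 𝔤} (hx : x ∈ nil s V) (hy : y ∈ V s) : ⁅x, y⁆ = 0 := by
  unfold nil at hx
  induction hx using Submodule.iSup_induction' with
  | zero => rw [zero_lie]
  | add x x' _ _ h1 h2 => rw [add_lie, h1, h2, add_zero]
  | mem i x hx =>
    have h1 := lie_W h (i + 1) (by omega) (by omega) s h.one_le x hx y
      (by rw [W, if_pos le_rfl]; exact hy)
    rwa [W, if_neg (by omega), Submodule.mem_bot] at h1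

/-- `ad T` has the eigenvalue `1` on `𝔫`, for every `T` in `A + 𝔫` -/
theorem exists_one [FiniteDimensional ℝ 𝔤] {n : 𝔤} (hn : n ∈ nil s V) :
    ∃ y : 𝔤, y ≠ 0 ∧ ⁅A + n, y⁆ = (1 : ℝ) • y := by
  by_contra hcon
  push Not at hcon
  have hmem : ∀ y ∈ nil s V,
      ⁅A + n, y⁆ - y ∈ ⨆ i : {i : Fin s // i.1 ≠ 0}, V (i.1 + 1) := by
    intro y hy
    rw [add_lie, add_sub_right_comm]
    exact Submodule.add_mem _ (lie_A_sub h hy) (lie_nil h hn hy)
  let φ : nil s V →ₗ[ℝ] nil s V :=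
    { toFun := fun y => ⟨⁅A + n, (y : 𝔤)⁆ - y, sup_le_nil (hmem y y.2)⟩
      map_add' := fun y y' => by
        ext
        show ⁅A + n, ((y + y' : nil s V) : 𝔤)⁆ - ((y + y' : nil s V) : 𝔤) =
          (⁅A + n, (y : 𝔤)⁆ - y) + (⁅A + n, (y' : 𝔤)⁆ - y')
        rw [Submodule.coe_add, lie_add]; abel
      map_smul' := fun t y => by
        ext
        show ⁅A + n, ((t • y : nil s V) : 𝔤)⁆ - ((t • y : nil s V) : 𝔤) =
          t • (⁅A + n, (y : 𝔤)⁆ - y)
        rw [Submodule.coe_smul, lie_smul, smul_sub] }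
  have hinj : Function.Injective φ := by
    rw [← LinearMap.ker_eq_bot, LinearMap.ker_eq_bot']
    intro y hy
    by_contra hy0
    have h1 : ⁅A + n, (y : 𝔤)⁆ - y = 0 := congrArg Subtype.val hy
    refine hcon y (fun h2 => hy0 (Subtype.ext h2)) ?_
    rw [one_smul, sub_eq_zero.1 h1]
  have hsurj : Function.Surjective φ := LinearMap.surjective_of_injective hinj
  obtain ⟨v, hv, hv0⟩ := (Submodule.ne_bot_iff _).1 (V_one_ne_bot h)
  have hvn : v ∈ nil s V := le_nil le_rfl h.one_le hv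
  obtain ⟨y, hy⟩ := hsurj ⟨v, hvn⟩
  have h1 : ⁅A + n, (y : 𝔤)⁆ - y = v := congrArg Subtype.val hy
  have h2 := hmem y y.2
  rw [h1] at h2
  have hind := h.indep ⟨0, h.one_le⟩
  rw [Submodule.disjoint_def] at hind
  refine hv0 (hind v (by simpa using hv) ?_)
  refine (iSup_le fun i => ?_ : (⨆ i : {i : Fin s // i.1 ≠ 0}, V (i.1 + 1)) ≤ _) h2
  refine le_iSup₂_of_le i.1 ?_ le_rfl
  intro h3
  exact i.2 (by rw [h3])

end Alg

/-- **Heintze groups of Carnot type are at most `1 / s ^ 2`-pinched.** For every Heintze group of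
Carnot type (Lie algebra `𝔤 = V₁ ⊕ ⋯ ⊕ V_s ⊕ ℝ A`), every left-invariant Riemannian metric (scalar
product `B` on `𝔤`) has a unique Levi-Civita connection `D`, and if its sectional curvatures lie in
`[a, b]`, `a ≤ b < 0`, then `b / a ≤ 1 / s ^ 2`. -/
theorem result : ∀ (𝔤 : Type) [LieRing 𝔤] [LieAlgebra ℝ 𝔤] [FiniteDimensional ℝ 𝔤] (s : ℕ)
    (V : ℕ → Submodule ℝ 𝔤) (A : 𝔤), IsCarnotHeintze s V A →
    ∀ B : 𝔤 →ₗ[ℝ] 𝔤 →ₗ[ℝ] ℝ, IsScalarProduct B →
      (∃! D : 𝔤 → 𝔤 → 𝔤, IsLeviCivita B D) ∧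
      ∀ (D : 𝔤 → 𝔤 → 𝔤) (a b : ℝ), IsLeviCivita B D → a ≤ b → b < 0 →
        (∀ x y : 𝔤, LinearIndependent ℝ ![x, y] → a ≤ sec B D x y ∧ sec B D x y ≤ b) →
          b / a ≤ 1 / (s : ℝ) ^ 2 := by
  intro 𝔤 _ _ _ s V A h B hB
  refine ⟨?_, ?_⟩
  · obtain ⟨D, hD⟩ := exists_leviCivita hB
    exact ⟨D, hD, fun D' hD' => hD'.unique hB hD⟩
  intro D a b hD _ _ hsec
  -- the vector of `A + 𝔫` orthogonal to `𝔫`
  obtain ⟨n, hn, hort⟩ : ∃ n ∈ nil s V, ∀ y ∈ nil s V, B (A + n) y = 0 := by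
    let β : nil s V →ₗ[ℝ] (nil s V →ₗ[ℝ] ℝ) := (B.domRestrict₁₂ (nil s V) (nil s V))
    have hβ : ∀ x y : nil s V, β x y = B x y := fun x y => rfl
    have hinj : Function.Injective β := by
      rw [← LinearMap.ker_eq_bot, LinearMap.ker_eq_bot']
      intro x hx
      by_contra hx0
      have h1 : B (x : 𝔤) x = 0 := by
        rw [← hβ, hx]; rfl
      exact (hB.pos x (fun h2 => hx0 (Subtype.ext h2))).ne' h1
    have hsurj : Function.Surjective β := by
      have h1 : finrank ℝ (nil s V →ₗ[ℝ] ℝ) = finrank ℝ (nil s V) := Subspace.dual_finrank_eq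
      exact (LinearMap.injective_iff_surjective_of_finrank_eq_finrank h1.symm).1 hinj
    obtain ⟨n, hn⟩ := hsurj ((-(B A)).domRestrict (nil s V))
    refine ⟨n, n.2, fun y hy => ?_⟩
    have h1 : B (n : 𝔤) y = -(B A y) := by
      have h2 := congrArg (fun f : nil s V →ₗ[ℝ] ℝ => f ⟨y, hy⟩) hn
      exact h2
    rw [map_add, LinearMap.add_apply, h1]
    ring
  have hT : ∀ x y : 𝔤, B ⁅x, y⁆ (A + n) = 0 := fun x y => by
    rw [hB.symm]; exact hort _ (lie_mem h x y)
  have hT0 : A + n ≠ 0 := by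
    intro h0
    apply h.notMem
    have h1 : A = -n := eq_neg_of_add_eq_zero_left h0
    rw [h1]
    exact Submodule.neg_mem _ hn
  obtain ⟨y, hy0, hy⟩ := exists_one h hn
  obtain ⟨z, hz, hz0⟩ := (Submodule.ne_bot_iff _).1 h.ne_bot
  have hz1 : ⁅A + n, z⁆ = (s : ℝ) • z := by
    rw [add_lie, lie_last h hn hz, add_zero, h.grading s h.one_le le_rfl z hz]
  have hs : (0 : ℝ) < s := by
    have := h.one_le
    exact_mod_cast this
  exact pinch hB hD hT hT0 hs hy0 hy hz0 hz1 hsec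

end Pool.Agent.Results.MP_1a0a4b_gt.ExactPinching
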